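import Mathlib

/-!
Systems of tropical polynomials on a finite-dimensional real vector space: active monomials, the
spans `L i x` of the differences of active exponents, and the submodular function
`finrank (LJ J x) - |J|`.
-/

set_option autoImplicit false

namespace Q151.Trop

open Module Topology

/-- A system of tropical polynomials. -/
structure Sys (ι κ E : Type) [NormedAddCommGroup E] [NormedSpace ℝ E] where
  /-- supports -/
  A : ι → Finset κ
  /-- exponents -/
  a : ι → κ → Dual ℝ E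
  /-- coefficients -/
  c : ι → κ → ℝ

variable {ι κ E : Type} [DecidableEq ι] [NormedAddCommGroup E] [NormedSpace ℝ E]
  [FiniteDimensional ℝ E]

namespace Sys

variable (S : Sys ι κ E)

/-- value of a monomial -/
def val (i : ι) (s : κ) (x : E) : ℝ := S.c i s + S.a i s x

/-- active monomials -/
def act (i : ι) (x : E) : Set κ := {s | s ∈ S.A i ∧ ∀ t ∈ S.A i, S.val i t x ≤ S.val i s x}

/-- span of the differences of active exponents -/
def L (i : ι) (x : E) : Submodule ℝ (Dual ℝ E) :=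
  Submodule.span ℝ {z | ∃ s ∈ S.act i x, ∃ t ∈ S.act i x, z = S.a i s - S.a i t}

/-- span of the differences of all exponents -/
def N (i : ι) : Submodule ℝ (Dual ℝ E) :=
  Submodule.span ℝ {z | ∃ s ∈ S.A i, ∃ t ∈ S.A i, z = S.a i s - S.a i t}

/-- joint span -/
def LJ (J : Finset ι) (x : E) : Submodule ℝ (Dual ℝ E) := J.sup fun i => S.L i x

/-- joint span -/
def NJ (J : Finset ι) : Submodule ℝ (Dual ℝ E) := J.sup S.N

theorem continuous_val (i : ι) (s : κ) : Continuous (S.val i s) :=
  continuous_const.add (LinearMap.continuous_of_finiteDimensional (S.a i s))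

omit [DecidableEq ι] [FiniteDimensional ℝ E] in
theorem act_nonempty {i : ι} (h : (S.A i).Nonempty) (x : E) : (S.act i x).Nonempty := by
  obtain ⟨s, hs, hmax⟩ := Finset.exists_max_image (S.A i) (fun s => S.val i s x) h
  exact ⟨s, hs, hmax⟩

omit [DecidableEq ι] [FiniteDimensional ℝ E] in
theorem L_mono {i : ι} {x y : E} (h : S.act i x ⊆ S.act i y) : S.L i x ≤ S.L i y := by
  apply Submodule.span_mono
  rintro z ⟨s, hs, t, ht, rfl⟩
  exact ⟨s, h hs, t, h ht, rfl⟩

omit [DecidableEq ι] [FiniteDimensional ℝ E] in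
theorem LJ_mono {J : Finset ι} {x y : E} (h : ∀ i ∈ J, S.act i x ⊆ S.act i y) :
    S.LJ J x ≤ S.LJ J y :=
  Finset.sup_mono_fun fun i hi => S.L_mono (h i hi)

omit [FiniteDimensional ℝ E] in
theorem LJ_union (J J' : Finset ι) (x : E) : S.LJ (J ∪ J') x = S.LJ J x ⊔ S.LJ J' x :=
  Finset.sup_union

omit [DecidableEq ι] [FiniteDimensional ℝ E] in
theorem LJ_sub {J J' : Finset ι} (h : J ⊆ J') (x : E) : S.LJ J x ≤ S.LJ J' x :=
  Finset.sup_mono h

omit [DecidableEq ι] [FiniteDimensional ℝ E] in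
theorem L_le_LJ {J : Finset ι} {i : ι} (h : i ∈ J) (x : E) : S.L i x ≤ S.LJ J x :=
  Finset.le_sup (f := fun i => S.L i x) h

/-- Near `p` only monomials active at `p` are active. -/
theorem near (I : Finset ι) (p : E) : ∀ᶠ x in 𝓝 p, ∀ i ∈ I, S.act i x ⊆ S.act i p := by
  rw [Filter.eventually_all_finset]
  intro i _
  have h1 : ∀ᶠ x in 𝓝 p, ∀ s ∈ S.A i, s ∉ S.act i p → s ∉ S.act i x := by
    rw [Filter.eventually_all_finset]
    intro s hs
    by_cases h : s ∈ S.act i p
    · exact Filter.Eventually.of_forall fun x hx => absurd h hx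
    · have : ∃ t ∈ S.A i, S.val i s p < S.val i t p := by
        by_contra hcon
        push Not at hcon
        exact h ⟨hs, hcon⟩
      obtain ⟨t, ht, hlt⟩ := this
      have := ((S.continuous_val i s).continuousAt (x := p)).eventually_lt
        ((S.continuous_val i t).continuousAt (x := p)) hlt
      filter_upwards [this] with x hx _ hs'
      exact absurd (hs'.2 t ht) (not_le.2 hx)
  filter_upwards [h1] with x hx s hs
  by_contra hcon
  exact hx s hs.1 hcon hs

omit [DecidableEq ι] [FiniteDimensional ℝ E] in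
theorem val_eq {i : ι} {x : E} {s t : κ} (hs : s ∈ S.act i x) (ht : t ∈ S.act i x) :
    S.val i s x = S.val i t x := le_antisymm (ht.2 s hs.1) (hs.2 t ht.1)

omit [DecidableEq ι] [FiniteDimensional ℝ E] in
/-- Fact 1: active differences near `p` vanish in the direction of movement. -/
theorem fact1 {i : ι} {x p : E} (h : S.act i x ⊆ S.act i p) {z : Dual ℝ E} (hz : z ∈ S.L i x) :
    z (x - p) = 0 := by
  unfold L at hz
  induction hz using Submodule.span_induction with
  | mem z hz =>
    obtain ⟨s, hs, t, ht, rfl⟩ := hz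
    have h1 := S.val_eq hs ht
    have h2 := S.val_eq (h hs) (h ht)
    unfold val at h1 h2
    simp only [LinearMap.sub_apply, map_sub]
    linarith
  | zero => simp
  | add x y _ _ hx hy => simp [hx, hy]
  | smul c x _ hx => simp [hx]

omit [DecidableEq ι] [FiniteDimensional ℝ E] in
theorem fact1J {J : Finset ι} {x p : E} (h : ∀ i ∈ J, S.act i x ⊆ S.act i p) {z : Dual ℝ E}
    (hz : z ∈ S.LJ J x) : z (x - p) = 0 := by
  have : S.LJ J x ≤ LinearMap.ker (Dual.eval ℝ E (x - p)) := by
    apply Finset.sup_le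
    intro i hi z hz
    rw [LinearMap.mem_ker, Dual.eval_apply]
    exact S.fact1 (h i hi) hz
  have := this hz
  rwa [LinearMap.mem_ker, Dual.eval_apply] at this

omit [DecidableEq ι] [FiniteDimensional ℝ E] in
/-- Fact 2: moving orthogonally to the active differences keeps the active set. -/
theorem fact2 {i : ι} (hne : (S.A i).Nonempty) {x p : E} (h : S.act i x ⊆ S.act i p)
    (hz : ∀ z ∈ S.L i p, z (x - p) = 0) : S.act i x = S.act i p := by
  apply le_antisymm h
  intro s hs
  obtain ⟨t, ht⟩ := S.act_nonempty hne x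
  have h1 := S.val_eq hs (h ht)
  have h2 := hz (S.a i s - S.a i t) (Submodule.subset_span ⟨s, hs, t, h ht, rfl⟩)
  have h3 : S.val i s x = S.val i t x := by
    unfold val at h1 ⊢
    simp only [LinearMap.sub_apply, map_sub] at h2
    linarith
  exact ⟨hs.1, fun r hr => h3 ▸ ht.2 r hr⟩

/-- all sets have value at least `G` -/
def Good (G : ℤ) (I : Finset ι) (x : E) : Prop :=
  ∀ J ⊆ I, G ≤ (finrank ℝ (S.LJ J x) : ℤ) - J.card

/-- the sets of value `G` -/
def Tight (G : ℤ) (I : Finset ι) (x : E) (J : Finset ι) : Prop :=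
  J ⊆ I ∧ (finrank ℝ (S.LJ J x) : ℤ) - J.card = G

theorem tight_lattice {G : ℤ} {I : Finset ι} {x : E} (hg : S.Good G I x) {J J' : Finset ι}
    (hJ : S.Tight G I x J) (hJ' : S.Tight G I x J') :
    S.Tight G I x (J ∪ J') ∧ S.Tight G I x (J ∩ J') ∧
      S.LJ (J ∩ J') x = S.LJ J x ⊓ S.LJ J' x := by
  have h1 := Submodule.finrank_sup_add_finrank_inf_eq (S.LJ J x) (S.LJ J' x)
  rw [← LJ_union] at h1
  have h2 : S.LJ (J ∩ J') x ≤ S.LJ J x ⊓ S.LJ J' x :=
    le_inf (S.LJ_sub Finset.inter_subset_left x) (S.LJ_sub Finset.inter_subset_right x)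
  have h3 := Submodule.finrank_mono h2
  have h4 := Finset.card_union_add_card_inter J J'
  have h5 := hg (J ∪ J') (Finset.union_subset hJ.1 hJ'.1)
  have h6 := hg (J ∩ J') (Finset.inter_subset_left.trans hJ.1)
  have h7 := hJ.2
  have h8 := hJ'.2
  refine ⟨⟨Finset.union_subset hJ.1 hJ'.1, by omega⟩,
    ⟨Finset.inter_subset_left.trans hJ.1, by omega⟩, ?_⟩
  exact Submodule.eq_of_le_of_finrank_eq h2 (by omega)

omit [DecidableEq ι] in
/-- Fact 3. -/
theorem stay {G : ℤ} {I : Finset ι} (hne : ∀ i ∈ I, (S.A i).Nonempty) {x p : E}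
    (hg : S.Good G I x) {J : Finset ι} (hJ : S.Tight G I p J)
    (h : ∀ i ∈ I, S.act i x ⊆ S.act i p) :
    S.LJ J x = S.LJ J p ∧ S.Tight G I x J ∧ (∀ i ∈ J, S.act i x = S.act i p) ∧
      ∀ z ∈ S.LJ J p, z (x - p) = 0 := by
  have h' : ∀ i ∈ J, S.act i x ⊆ S.act i p := fun i hi => h i (hJ.1 hi)
  have h1 : S.LJ J x ≤ S.LJ J p := S.LJ_mono h'
  have h2 := Submodule.finrank_mono h1
  have h3 := hg J hJ.1
  have h4 := hJ.2
  have h5 : S.LJ J x = S.LJ J p := Submodule.eq_of_le_of_finrank_eq h1 (by omega)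
  have h6 : ∀ z ∈ S.LJ J p, z (x - p) = 0 := by
    intro z hz
    rw [← h5] at hz
    exact S.fact1J h' hz
  refine ⟨h5, ⟨hJ.1, by rw [h5]; exact h4⟩, ?_, h6⟩
  intro i hi
  exact S.fact2 (hne i (hJ.1 hi)) (h' i hi) fun z hz => h6 z (S.L_le_LJ hi p hz)

end Sys

end Q151.Trop
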