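import Pool.Agent.Q151.Trop.StepA

/-!
The local-to-global principle: every connected component of an intersection of tropical
hypersurfaces contains a point at which the local value `min (finrank (LJ J x) - |J|)` is at least
the global value `min (finrank (NJ J) - |J|)`.
-/

set_option autoImplicit false

namespace Q151.Trop

open Module Topology

theorem const_of_local {E X : Type} [TopologicalSpace E] {T : Set E} (hT : IsPreconnected T)
    (f : E → X) (h : ∀ x ∈ T, ∀ᶠ y in 𝓝 x, y ∈ T → f y = f x) {x y : E} (hx : x ∈ T)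
    (hy : y ∈ T) : f y = f x := by
  have : PreconnectedSpace T := Subtype.preconnectedSpace hT
  have hl : IsLocallyConstant (fun z : T => f z) := by
    rw [IsLocallyConstant.iff_eventually_eq]
    intro z
    have h1 := h z z.2
    have h2 := (continuous_subtype_val.tendsto z).eventually h1
    filter_upwards [h2] with w hw
    exact hw w.2
  exact hl.apply_eq_of_preconnectedSpace ⟨y, hy⟩ ⟨x, hx⟩

variable {ι κ E : Type} [DecidableEq ι] [NormedAddCommGroup E] [NormedSpace ℝ E]
  [FiniteDimensional ℝ E]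

theorem seg_preconnected (x u : E) (t : ℝ) :
    IsPreconnected ((fun s : ℝ => x + s • u) '' Set.Icc 0 t) := by
  apply isPreconnected_Icc.image
  fun_prop

namespace Sys

variable (S : Sys ι κ E)

/-- the intersection of the hypersurfaces with index in `K` -/
def Z (K : Finset ι) : Set E := {x | ∀ i ∈ K, S.L i x ≠ ⊥}

omit [DecidableEq ι] in
theorem good_mono {G : ℤ} {I : Finset ι} {x y : E} (h : S.Good G I x)
    (hxy : ∀ i ∈ I, S.act i x ⊆ S.act i y) : S.Good G I y := by
  intro J hJ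
  have h1 := h J hJ
  have h2 := Submodule.finrank_mono (S.LJ_mono (J := J) fun i hi => hxy i (hJ hi))
  omega

omit [DecidableEq ι] [FiniteDimensional ℝ E] in
theorem Z_mono {I K : Finset ι} (hK : K ⊆ I) {x y : E} (h : x ∈ S.Z K)
    (hxy : ∀ i ∈ I, S.act i x ⊆ S.act i y) : y ∈ S.Z K := by
  intro i hi h0
  apply h i hi
  have := S.L_mono (hxy i (hK hi))
  rw [h0] at this
  exact le_bot_iff.1 this

theorem core (I K : Finset ι) (hKI : K ⊆ I) (hne : ∀ i ∈ I, (S.A i).Nonempty)
    (hE : ∀ m < finrank ℝ E, EE ι κ m) (p0 : E) (hp0 : p0 ∈ S.Z K) :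
    ∃ p ∈ connectedComponentIn (S.Z K) p0, ∃ J ⊆ I,
      S.Good ((finrank ℝ (S.NJ J) : ℤ) - J.card) I p := by
  classical
  set C := connectedComponentIn (S.Z K) p0 with hC
  -- the largest local value on the component
  have hbd : ∃ b : ℤ, ∀ G : ℤ, (∃ x ∈ C, S.Good G I x) → G ≤ b := by
    refine ⟨0, ?_⟩
    rintro G ⟨x, -, hx⟩
    have := hx ∅ (Finset.empty_subset _)
    have h0 : S.LJ ∅ x = ⊥ := Finset.sup_empty
    rw [h0, finrank_bot] at this
    simpa using this
  have hex : ∃ G : ℤ, ∃ x ∈ C, S.Good G I x := by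
    refine ⟨-I.card, p0, mem_connectedComponentIn hp0, ?_⟩
    intro J hJ
    have := Finset.card_le_card hJ
    omega
  obtain ⟨G, ⟨p1, hp1C, hp1G⟩, hGmax⟩ := Int.exists_greatest_of_bdd hbd hex
  have htight : ∀ x ∈ C, S.Good G I x → ∃ J, S.Tight G I x J := by
    intro x hx hg
    by_contra hcon
    push Not at hcon
    have : S.Good (G + 1) I x := by
      intro J hJ
      have h1 := hg J hJ
      have h2 : (finrank ℝ (S.LJ J x) : ℤ) - J.card ≠ G := fun h => hcon J ⟨hJ, h⟩
      omega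
    have := hGmax (G + 1) ⟨x, hx, this⟩
    omega
  set SG : Set E := {x | x ∈ C ∧ S.Good G I x} with hSG
  set T := connectedComponentIn SG p1 with hT
  have hp1S : p1 ∈ SG := ⟨hp1C, hp1G⟩
  have hp1T : p1 ∈ T := mem_connectedComponentIn hp1S
  have hTS : ∀ {x}, x ∈ T → x ∈ SG := fun hx => connectedComponentIn_subset _ _ hx
  have hCZ : ∀ {x}, x ∈ C → x ∈ S.Z K := fun hx => connectedComponentIn_subset _ _ hx
  have hTconn : IsPreconnected T := isPreconnected_connectedComponentIn
  -- preconnected subsets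
  have hCmem : ∀ (Q : Set E), IsPreconnected Q → Q ⊆ S.Z K → ∀ x ∈ C, x ∈ Q → Q ⊆ C := by
    intro Q hQ hQZ x hx hxQ
    have h1 := hQ.subset_connectedComponentIn hxQ hQZ
    have h2 := connectedComponentIn_eq (show x ∈ connectedComponentIn (S.Z K) p0 from hx)
    rw [hC, h2]; exact h1
  have hTmem : ∀ (Q : Set E), IsPreconnected Q → Q ⊆ SG → ∀ x ∈ T, x ∈ Q → Q ⊆ T := by
    intro Q hQ hQZ x hx hxQ
    have h1 := hQ.subset_connectedComponentIn hxQ hQZ
    have h2 := connectedComponentIn_eq (show x ∈ connectedComponentIn SG p1 from hx)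
    rw [hT, h2]; exact h1
  -- the segment criterion
  have hseg : ∀ x ∈ T, ∀ (u : E) (t : ℝ), 0 ≤ t →
      (∀ s, 0 ≤ s → s ≤ t → x + s • u ∈ S.Z K ∧ S.Good G I (x + s • u)) → x + t • u ∈ T := by
    intro x hx u t ht h
    have h0 : x ∈ (fun s : ℝ => x + s • u) '' Set.Icc 0 t := ⟨0, ⟨le_rfl, ht⟩, by simp⟩
    have h1 : (fun s : ℝ => x + s • u) '' Set.Icc 0 t ⊆ C := by
      apply hCmem _ (seg_preconnected x u t) _ x (hTS hx).1 h0
      rintro _ ⟨s, hs, rfl⟩
      exact (h s hs.1 hs.2).1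
    have h2 : (fun s : ℝ => x + s • u) '' Set.Icc 0 t ⊆ T := by
      apply hTmem _ (seg_preconnected x u t) _ x hx h0
      rintro _ ⟨s, hs, rfl⟩
      exact ⟨h1 ⟨s, hs, rfl⟩, (h s hs.1 hs.2).2⟩
    exact h2 ⟨t, ⟨ht, le_rfl⟩, rfl⟩
  -- step A inside `T`
  have hA : ∀ x ∈ T, ∀ l : Dual ℝ E, (∀ J, S.Tight G I x J → l ∉ S.LJ J x) →
      ∃ y ∈ T, l x < l y := by
    intro x hx l hl
    obtain ⟨J0, hJ0⟩ := htight x (hTS hx).1 (hTS hx).2
    obtain ⟨u, hu, ε, hε, h⟩ := S.stepA I hne hE x G (hTS hx).2 J0 hJ0 l hl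
    refine ⟨x + ε • u, ?_, ?_⟩
    · apply hseg x hx u ε hε.le
      intro s hs hsε
      rcases hs.eq_or_lt with rfl | hs
      · rw [zero_smul, add_zero]; exact ⟨hCZ (hTS hx).1, (hTS hx).2⟩
      · obtain ⟨h1, -, h3⟩ := h s hs hsε
        refine ⟨fun i hi => h3 i (hKI hi) (hCZ (hTS hx).1 i hi), h1⟩
    · rw [map_add, map_smul, smul_eq_mul]
      have := mul_pos hε hu
      linarith
  -- climbing
  have hclimb : ∀ l : Dual ℝ E, BddAbove (l '' T) → ∀ d : ℕ, ∀ x ∈ T,
      finrank ℝ E - finrank ℝ (S.LJ I x) = d → ∃ x' ∈ T, l x ≤ l x' ∧ l ∈ S.LJ I x' := by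
    intro l hl d
    induction d using Nat.strong_induction_on with
    | _ d ih =>
    intro x hx hd
    by_cases hlx : l ∈ S.LJ I x
    · exact ⟨x, hx, le_rfl, hlx⟩
    -- a direction
    obtain ⟨u, huV, hul⟩ : ∃ u : E, (∀ z ∈ S.LJ I x, z u = 0) ∧ l u = 1 := by
      have h1 : l ∉ (S.LJ I x).dualCoannihilator.dualAnnihilator := by
        rw [Subspace.dualCoannihilator_dualAnnihilator_eq]; exact hlx
      rw [Submodule.mem_dualAnnihilator] at h1
      push Not at h1
      obtain ⟨w, hw, hw'⟩ := h1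
      rw [Submodule.mem_dualCoannihilator] at hw
      refine ⟨(l w)⁻¹ • w, fun z hz => by rw [map_smul, hw z hz, smul_zero], ?_⟩
      rw [map_smul, smul_eq_mul, inv_mul_cancel₀ hw']
    set τ : Set ℝ := {t | 0 ≤ t ∧ ∀ i ∈ I, ∀ r ∈ S.act i x, ∀ s ∈ S.A i,
      S.val i s (x + t • u) ≤ S.val i r (x + t • u)} with hτ
    have hτact : ∀ t ∈ τ, ∀ i ∈ I, S.act i x ⊆ S.act i (x + t • u) := by
      intro t ht i hi r hr
      exact ⟨hr.1, fun s hs => ht.2 i hi r hr s hs⟩
    have h0τ : (0 : ℝ) ∈ τ := by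
      refine ⟨le_rfl, fun i _ r hr s hs => ?_⟩
      rw [zero_smul, add_zero]
      exact hr.2 s hs
    have hval : ∀ i s t, S.val i s (x + t • u) = S.val i s x + t * S.a i s u := by
      intro i s t
      unfold val
      rw [map_add, map_smul, smul_eq_mul]
      ring
    have hτdown : ∀ t ∈ τ, ∀ s, 0 ≤ s → s ≤ t → s ∈ τ := by
      intro t ht s hs hst
      refine ⟨hs, fun i hi r hr q hq => ?_⟩
      have h1 := ht.2 i hi r hr q hq
      have h2 := hr.2 q hq
      rw [hval, hval] at h1 ⊢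
      by_cases hqr : S.a i q u ≤ S.a i r u
      · have := mul_le_mul_of_nonneg_left hqr hs
        linarith
      · have h3 : s * (S.a i q u - S.a i r u) ≤ t * (S.a i q u - S.a i r u) :=
          mul_le_mul_of_nonneg_right hst (by linarith)
        nlinarith
    have hτT : ∀ t ∈ τ, x + t • u ∈ T := by
      intro t ht
      apply hseg x hx u t ht.1
      intro s hs hst
      have h1 := hτact s (hτdown t ht s hs hst)
      exact ⟨S.Z_mono hKI (hCZ (hTS hx).1) h1, S.good_mono (hTS hx).2 h1⟩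
    have hτbdd : BddAbove τ := by
      obtain ⟨M, hM⟩ := hl
      refine ⟨M - l x, ?_⟩
      intro t ht
      have := hM ⟨x + t • u, hτT t ht, rfl⟩
      rw [map_add, map_smul, hul, smul_eq_mul, mul_one] at this
      linarith
    have hτclosed : IsClosed τ := by
      have : τ = Set.Ici 0 ∩ ⋂ i ∈ I, ⋂ r ∈ S.act i x, ⋂ s ∈ S.A i,
          {t : ℝ | S.val i s (x + t • u) ≤ S.val i r (x + t • u)} := by
        ext t
        simp only [hτ, Set.mem_ofPred_eq, Set.mem_inter_iff, Set.mem_Ici, Set.mem_iInter]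
      rw [this]
      apply isClosed_Ici.inter
      refine isClosed_biInter fun i _ => isClosed_biInter fun r _ => isClosed_biInter fun s _ => ?_
      have hc : ∀ q, Continuous fun t : ℝ => S.val i q (x + t • u) := fun q =>
        (S.continuous_val i q).comp (by fun_prop)
      exact isClosed_le (hc s) (hc r)
    set ts := sSup τ with hts
    have htsτ : ts ∈ τ := hτclosed.csSup_mem ⟨0, h0τ⟩ hτbdd
    set xs := x + ts • u with hxs
    have hxsT : xs ∈ T := hτT ts htsτ
    have hactxs := hτact ts htsτ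
    rw [← hxs] at hactxs
    have hle : S.LJ I x ≤ S.LJ I xs := S.LJ_mono hactxs
    have hlt : finrank ℝ (S.LJ I x) < finrank ℝ (S.LJ I xs) := by
      rcases (Submodule.finrank_mono hle).eq_or_lt with heq | hlt
      swap
      · exact hlt
      exfalso
      have heq' : S.LJ I x = S.LJ I xs := Submodule.eq_of_le_of_finrank_eq hle heq
      -- then we can go further
      have hcont : Filter.Tendsto (fun t : ℝ => xs + t • u) (𝓝 0) (𝓝 xs) := by
        have : Continuous (fun t : ℝ => xs + t • u) := by fun_prop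
        have h := this.tendsto 0
        simpa using h
      have hev := hcont.eventually (S.near I xs)
      obtain ⟨δ, hδ, hδ'⟩ := Metric.eventually_nhds_iff.1 hev
      have hact2 := hδ' (y := δ / 2) (by
        rw [Real.dist_eq, sub_zero, abs_of_pos (by positivity)]; linarith)
      have : ts + δ / 2 ∈ τ := by
        refine ⟨add_nonneg htsτ.1 (by positivity), ?_⟩
        intro i hi r hr s hs
        have h1 : S.act i (xs + (δ / 2) • u) = S.act i xs := by
          apply S.fact2 (hne i hi) (hact2 i hi)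
          intro z hz
          rw [add_sub_cancel_left, map_smul, huV z, smul_zero]
          rw [heq']
          exact S.L_le_LJ hi xs hz
        have h2 : r ∈ S.act i (xs + (δ / 2) • u) := by
          rw [h1]; exact hactxs i hi hr
        have h3 := h2.2 s hs
        have h4 : xs + (δ / 2) • u = x + (ts + δ / 2) • u := by
          rw [hxs, add_smul]; abel
        rwa [h4] at h3
      have := le_csSup hτbdd this
      rw [← hts] at this
      linarith
    obtain ⟨x', hx', h1, h2⟩ := ih (finrank ℝ E - finrank ℝ (S.LJ I xs)) (by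
      have h3 := Submodule.finrank_le (S.LJ I xs)
      rw [Subspace.dual_finrank_eq] at h3
      omega) xs hxsT rfl
    refine ⟨x', hx', le_trans ?_ h1, h2⟩
    rw [hxs, map_add, map_smul, hul, smul_eq_mul, mul_one]
    linarith [htsτ.1]
  -- the maximum is attained
  have hmaxatt : ∀ l : Dual ℝ E, BddAbove (l '' T) → ∃ x ∈ T, ∀ y ∈ T, l y ≤ l x := by
    intro l hl
    set W : Set E := {x | x ∈ T ∧ l ∈ S.LJ I x} with hW
    let ty : E → (I → Finset κ) := fun x i => (S.A i).filter fun s => s ∈ S.act i x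
    have hty : ∀ x y, ty x = ty y → ∀ i ∈ I, S.act i x ⊆ S.act i y := by
      intro x y h i hi s hs
      have h1 := congrFun h ⟨i, hi⟩
      have h2 : s ∈ ty x ⟨i, hi⟩ := Finset.mem_filter.2 ⟨hs.1, hs⟩
      rw [h1] at h2
      exact (Finset.mem_filter.1 h2).2
    have hfin : (ty '' W).Finite := by
      apply Set.Finite.subset (Finset.finite_toSet
        (Fintype.piFinset fun i : I => (S.A i).powerset))
      rintro _ ⟨x, -, rfl⟩
      rw [Finset.mem_coe, Fintype.mem_piFinset]
      intro i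
      exact Finset.mem_powerset.2 (Finset.filter_subset _ _)
    have hWne : W.Nonempty := by
      obtain ⟨x', hx', -, h⟩ := hclimb l hl _ p1 hp1T rfl
      exact ⟨x', hx', h⟩
    have hVfin : (l '' W).Finite := by
      let g : (I → Finset κ) → ℝ := fun θ => if h : ∃ x ∈ W, ty x = θ then l h.choose else 0
      apply (hfin.image g).subset
      rintro _ ⟨x, hx, rfl⟩
      refine ⟨ty x, ⟨x, hx, rfl⟩, ?_⟩
      have hex : ∃ x' ∈ W, ty x' = ty x := ⟨x, hx, rfl⟩
      have hg : g (ty x) = l hex.choose := dif_pos hex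
      rw [hg]
      obtain ⟨h1, h2⟩ := hex.choose_spec
      have h3 := S.fact1J (J := I) (hty _ _ h2.symm) hx.2
      rw [map_sub] at h3
      linarith
    obtain ⟨v, ⟨x, hx, rfl⟩, hmax⟩ := Set.exists_max_image _ id hVfin (hWne.image l)
    refine ⟨x, hx.1, fun y hy => ?_⟩
    obtain ⟨x', hx', h1, h2⟩ := hclimb l hl _ y hy rfl
    exact h1.trans (hmax (l x') ⟨x', ⟨hx', h2⟩, rfl⟩)
  -- eventually facts
  have hstay : ∀ x ∈ T, ∀ᶠ y in 𝓝 x, y ∈ T → ∀ J, S.Tight G I x J →
      S.LJ J y = S.LJ J x ∧ S.Tight G I y J ∧ (∀ i ∈ J, S.act i y = S.act i x) ∧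
      ∀ z ∈ S.LJ J x, z (y - x) = 0 := by
    intro x _
    filter_upwards [S.near I x] with y hy hyT J hJ
    exact S.stay hne (hTS hyT).2 hJ hy
  -- bounded functionals are constant and seen by tight sets
  have hB : ∀ l : Dual ℝ E, BddAbove (l '' T) → ∀ x ∈ T, ∃ J, S.Tight G I x J ∧ l ∈ S.LJ J x := by
    intro l hl
    obtain ⟨xm, hxm, hmax⟩ := hmaxatt l hl
    have hkey : ∀ x ∈ T, l x = l xm → ∃ J, S.Tight G I x J ∧ l ∈ S.LJ J x := by
      intro x hx hxM
      by_contra hcon
      push Not at hcon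
      obtain ⟨y, hy, hlt⟩ := hA x hx l hcon
      have := hmax y hy
      linarith
    have hconst : ∀ x ∈ T, (l x = l xm) = (l xm = l xm) := by
      intro x hx
      refine const_of_local hTconn (fun y => (l y = l xm)) ?_ hxm hx
      intro y hy
      by_cases h : l y = l xm
      · obtain ⟨J, hJ, hlJ⟩ := hkey y hy h
        filter_upwards [hstay y hy] with z hz hzT
        have := (hz hzT J hJ).2.2.2 l hlJ
        rw [map_sub] at this
        have h2 : l z = l y := by linarith
        rw [h2]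
      · have hc : Continuous l := LinearMap.continuous_of_finiteDimensional l
        have : ∀ᶠ z in 𝓝 y, l z ≠ l xm := hc.continuousAt.eventually_ne h
        filter_upwards [this] with z hz _
        simp [h, hz]
    intro x hx
    exact hkey x hx (by rw [hconst x hx])
  -- the least tight set seeing `l` is constant
  have hCc : ∀ l : Dual ℝ E, BddAbove (l '' T) → ∃ J, ∀ x ∈ T, S.Tight G I x J ∧ l ∈ S.LJ J x := by
    intro l hl
    let P : E → Finset ι → Prop := fun x J => S.Tight G I x J ∧ l ∈ S.LJ J x ∧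
      ∀ J', S.Tight G I x J' → l ∈ S.LJ J' x → J ⊆ J'
    have hPex : ∀ x ∈ T, ∃ J, P x J := by
      intro x hx
      obtain ⟨J1, hJ1, hlJ1⟩ := hB l hl x hx
      obtain ⟨J, hJ, hmin⟩ := Finset.exists_min_image
        (I.powerset.filter fun J => S.Tight G I x J ∧ l ∈ S.LJ J x) Finset.card
        ⟨J1, Finset.mem_filter.2 ⟨Finset.mem_powerset.2 hJ1.1, hJ1, hlJ1⟩⟩
      obtain ⟨-, hJt, hJl⟩ := Finset.mem_filter.1 hJ
      refine ⟨J, hJt, hJl, fun J' hJ' hl' => ?_⟩
      obtain ⟨-, h2, h3⟩ := S.tight_lattice (hTS hx).2 hJt hJ'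
      have h4 := hmin (J ∩ J') (Finset.mem_filter.2 ⟨Finset.mem_powerset.2 h2.1, h2, by
        rw [h3]; exact ⟨hJl, hl'⟩⟩)
      have h5 : J ∩ J' = J := Finset.eq_of_subset_of_card_le Finset.inter_subset_left h4
      exact Finset.inter_eq_left.1 h5
    have hPuniq : ∀ x J J', P x J → P x J' → J = J' := fun x J J' h h' =>
      Finset.Subset.antisymm (h.2.2 J' h'.1 h'.2.1) (h'.2.2 J h.1 h.2.1)
    have hPstay : ∀ x ∈ T, ∀ J, P x J → ∀ᶠ y in 𝓝 x, y ∈ T → P y J := by
      intro x hx J hP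
      filter_upwards [hstay x hx] with y hy hyT
      obtain ⟨h1, h2, h3, -⟩ := hy hyT J hP.1
      refine ⟨h2, by rw [h1]; exact hP.2.1, fun J' hJ' hl' => ?_⟩
      obtain ⟨-, h5, h6⟩ := S.tight_lattice (hTS hyT).2 h2 hJ'
      have h7 : l ∈ S.LJ (J ∩ J') y := by
        rw [h6, h1]; exact ⟨hP.2.1, hl'⟩
      have h8 : S.LJ (J ∩ J') y = S.LJ (J ∩ J') x :=
        le_antisymm (S.LJ_mono fun i hi => (h3 i (Finset.mem_inter.1 hi).1).le)
          (S.LJ_mono fun i hi => (h3 i (Finset.mem_inter.1 hi).1).ge)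
      rw [h8] at h7
      have h9 : S.Tight G I x (J ∩ J') := ⟨h5.1, by rw [← h8]; exact h5.2⟩
      exact (hP.2.2 _ h9 h7).trans Finset.inter_subset_right
    obtain ⟨J, hJ⟩ := hPex p1 hp1T
    refine ⟨J, fun x hx => ?_⟩
    have hconst : P x J = P p1 J := by
      refine const_of_local hTconn (fun y => P y J) ?_ hp1T hx
      intro y hy
      by_cases h : P y J
      · filter_upwards [hPstay y hy J h] with z hz hzT
        exact propext ⟨fun _ => h, fun _ => hz hzT⟩
      · obtain ⟨J', hJ'⟩ := hPex y hy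
        filter_upwards [hPstay y hy J' hJ'] with z hz hzT
        refine propext ⟨fun hzJ => ?_, fun hyJ => absurd hyJ h⟩
        have := hPuniq z J J' hzJ (hz hzT)
        rw [this]; exact hJ'
    have : P x J := by rw [hconst]; exact hJ
    exact ⟨this.1, this.2.1⟩
  -- the largest common tight set
  obtain ⟨Jz, hJz⟩ := hCc 0 ⟨0, by rintro _ ⟨x, -, rfl⟩; simp⟩
  obtain ⟨Jh, hJh, hJhmax⟩ := Finset.exists_max_image
    (I.powerset.filter fun J => ∀ x ∈ T, S.Tight G I x J) Finset.card
    ⟨Jz, Finset.mem_filter.2 ⟨Finset.mem_powerset.2 (hJz p1 hp1T).1.1, fun x hx => (hJz x hx).1⟩⟩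
  obtain ⟨-, hJht⟩ := Finset.mem_filter.1 hJh
  have hJhI : Jh ⊆ I := (hJht p1 hp1T).1
  have hBsub : ∀ l : Dual ℝ E, BddAbove (l '' T) → l ∈ S.LJ Jh p1 := by
    intro l hl
    obtain ⟨J, hJ⟩ := hCc l hl
    have h1 : ∀ x ∈ T, S.Tight G I x (Jh ∪ J) := fun x hx =>
      (S.tight_lattice (hTS hx).2 (hJht x hx) (hJ x hx).1).1
    have h2 := hJhmax (Jh ∪ J) (Finset.mem_filter.2
      ⟨Finset.mem_powerset.2 (h1 p1 hp1T).1, h1⟩)
    have h3 : Jh = Jh ∪ J := Finset.eq_of_subset_of_card_le Finset.subset_union_left h2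
    rw [h3, LJ_union]
    exact Submodule.mem_sup_right (hJ p1 hp1T).2
  have hactconst : ∀ j ∈ Jh, ∀ x ∈ T, S.act j x = S.act j p1 := by
    intro j hj x hx
    refine const_of_local hTconn (fun y => S.act j y) ?_ hp1T hx
    intro y hy
    filter_upwards [hstay y hy] with z hz hzT
    exact (hz hzT Jh (hJht y hy)).2.2.1 j hj
  have hNle : S.NJ Jh ≤ S.LJ Jh p1 := by
    apply Finset.sup_le
    intro j hj
    unfold N
    rw [Submodule.span_le]
    obtain ⟨b, hb⟩ := S.act_nonempty (hne j (hJhI hj)) p1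
    have h1 : ∀ s ∈ S.A j, S.a j s - S.a j b ∈ S.LJ Jh p1 := by
      intro s hs
      apply hBsub
      refine ⟨S.c j b - S.c j s, ?_⟩
      rintro _ ⟨x, hx, rfl⟩
      have hbx : b ∈ S.act j x := by rw [hactconst j hj x hx]; exact hb
      have := hbx.2 s hs
      unfold val at this
      rw [LinearMap.sub_apply]
      linarith
    rintro z ⟨s, hs, t, ht, rfl⟩
    have h2 := (S.LJ Jh p1).sub_mem (h1 s hs) (h1 t ht)
    rw [sub_sub_sub_cancel_right] at h2
    exact h2
  refine ⟨p1, hp1C, Jh, hJhI, ?_⟩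
  intro J hJ
  have h1 := hp1G J hJ
  have h2 := Submodule.finrank_mono hNle
  have h3 := (hJht p1 hp1T).2
  omega

end Sys

/-- Existence holds in every dimension. -/
theorem EE_all (m : ℕ) : EE ι κ m := by
  classical
  induction m using Nat.strong_induction_on with
  | _ m ih =>
  intro E _ _ _ hm S I hne hHall
  subst hm
  have h0 : (0 : E) ∈ S.Z ∅ := by intro i hi; simp at hi
  obtain ⟨p, -, J, hJ, hgood⟩ := S.core I ∅ (Finset.empty_subset _) hne ih 0 h0
  refine ⟨p, fun J' hJ' => ?_⟩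
  have h1 := hgood J' hJ'
  have h2 := hHall J hJ
  omega

end Q151.Trop
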