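import Pool.Agent.Q151.Trop.Core

/-!
Rado's theorem for the function `finrank (LJ J p)`.
-/

set_option autoImplicit false

namespace Q151.Trop

open Module Topology

variable {ι κ E : Type} [DecidableEq ι] [NormedAddCommGroup E] [NormedSpace ℝ E]
  [FiniteDimensional ℝ E]

namespace Sys

theorem rado (S : Sys ι κ E) (I : Finset ι) (p : E) (d : ℕ)
    (h : S.Good ((d : ℤ) - I.card) I p) :
    ∃ J ⊆ I, J.card = d ∧ ∀ J' ⊆ J, J'.card ≤ finrank ℝ (S.LJ J' p) := by
  classical
  have hempty : ∀ J' ⊆ (∅ : Finset ι), J'.card ≤ finrank ℝ (S.LJ J' p) := by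
    intro J' hJ'
    rw [Finset.subset_empty.1 hJ', Finset.card_empty]
    exact Nat.zero_le _
  obtain ⟨J0, hJ0, hmax⟩ := Finset.exists_max_image
    (I.powerset.filter fun J => ∀ J' ⊆ J, J'.card ≤ finrank ℝ (S.LJ J' p)) Finset.card
    ⟨∅, Finset.mem_filter.2 ⟨Finset.mem_powerset.2 (Finset.empty_subset _), hempty⟩⟩
  obtain ⟨hJ0I, hJ0H⟩ := Finset.mem_filter.1 hJ0
  rw [Finset.mem_powerset] at hJ0I
  have hgood : S.Good 0 J0 p := by
    intro J hJ
    have := hJ0H J hJ
    omega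
  have h0 : S.Tight 0 J0 p ∅ := by
    refine ⟨Finset.empty_subset _, ?_⟩
    have h1 : S.LJ ∅ p = ⊥ := Finset.sup_empty
    rw [h1, finrank_bot]
    simp
  obtain ⟨Ts, hTs, hTmax⟩ := Finset.exists_max_image
    (J0.powerset.filter fun J => S.Tight 0 J0 p J) Finset.card
    ⟨∅, Finset.mem_filter.2 ⟨Finset.mem_powerset.2 (Finset.empty_subset _), h0⟩⟩
  obtain ⟨-, hTst⟩ := Finset.mem_filter.1 hTs
  have habs : ∀ T, S.Tight 0 J0 p T → T ⊆ Ts := by
    intro T hT
    have h1 := (S.tight_lattice hgood hTst hT).1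
    have h2 := hTmax (Ts ∪ T) (Finset.mem_filter.2 ⟨Finset.mem_powerset.2 h1.1, h1⟩)
    have h3 : Ts = Ts ∪ T := Finset.eq_of_subset_of_card_le Finset.subset_union_left h2
    rw [h3]
    exact Finset.subset_union_right
  have hout : ∀ i ∈ I \ J0, S.L i p ≤ S.LJ Ts p := by
    intro i hi
    obtain ⟨hiI, hiJ⟩ := Finset.mem_sdiff.1 hi
    have h1 : ¬ ∀ J' ⊆ insert i J0, J'.card ≤ finrank ℝ (S.LJ J' p) := by
      intro hcon
      have h2 := hmax (insert i J0) (Finset.mem_filter.2 ⟨Finset.mem_powerset.2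
        (Finset.insert_subset hiI hJ0I), hcon⟩)
      rw [Finset.card_insert_of_notMem hiJ] at h2
      omega
    push Not at h1
    obtain ⟨T, hT, hlt⟩ := h1
    have hiT : i ∈ T := by
      by_contra hcon
      have h3 : T ⊆ J0 := fun j hj => by
        rcases Finset.mem_insert.1 (hT hj) with rfl | h
        · exact absurd hj hcon
        · exact h
      have := hJ0H T h3
      omega
    have h3 : T.erase i ⊆ J0 := by
      intro j hj
      obtain ⟨hji, hjT⟩ := Finset.mem_erase.1 hj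
      exact (Finset.mem_insert.1 (hT hjT)).resolve_left hji
    have h4 := hJ0H _ h3
    have h5 : S.LJ (T.erase i) p ≤ S.LJ T p := S.LJ_sub (Finset.erase_subset _ _) p
    have h6 := Submodule.finrank_mono h5
    have h7 := Finset.card_erase_add_one hiT
    have h8 : S.LJ (T.erase i) p = S.LJ T p := Submodule.eq_of_le_of_finrank_eq h5 (by omega)
    have h9 : S.Tight 0 J0 p (T.erase i) := ⟨h3, by omega⟩
    calc S.L i p ≤ S.LJ T p := S.L_le_LJ hiT p
      _ = S.LJ (T.erase i) p := h8.symm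
      _ ≤ S.LJ Ts p := S.LJ_sub (habs _ h9) p
  have hTsI : Ts ⊆ I := hTst.1.trans hJ0I
  have h1 := h (Ts ∪ (I \ J0)) (Finset.union_subset hTsI Finset.sdiff_subset)
  have h2 : S.LJ (Ts ∪ (I \ J0)) p ≤ S.LJ Ts p := by
    rw [LJ_union]
    exact sup_le le_rfl (Finset.sup_le hout)
  have h3 := Submodule.finrank_mono h2
  have h4 : (Ts ∪ (I \ J0)).card = Ts.card + (I \ J0).card := by
    apply Finset.card_union_of_disjoint
    rw [Finset.disjoint_left]
    intro i hi hi'
    exact (Finset.mem_sdiff.1 hi').2 (hTst.1 hi)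
  have h5 := Finset.card_sdiff_add_card_eq_card hJ0I
  have h6 := hTst.2
  have hle : d ≤ J0.card := by omega
  obtain ⟨J, hJ, hJc⟩ := Finset.exists_subset_card_eq hle
  exact ⟨J, hJ.trans hJ0I, hJc, fun J' hJ' => hJ0H J' (hJ'.trans hJ)⟩

end Sys

end Q151.Trop
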