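import Pool.Agent.Q151.Trop.Base

/-!
The local step: from a point where the tight sets do not see `ℓ` one can move, inside the set of
points of value `G`, in a direction with `ℓ > 0`.  Uses existence in smaller dimension.
-/

set_option autoImplicit false

namespace Q151.Trop

open Module Topology

/-- existence in dimension `m`: the global Hall condition gives a point with the local one -/
def EE (ι κ : Type) (m : ℕ) : Prop :=
  ∀ (E : Type) [NormedAddCommGroup E] [NormedSpace ℝ E] [FiniteDimensional ℝ E],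
    finrank ℝ E = m → ∀ (S : Sys ι κ E) (I : Finset ι), (∀ i ∈ I, (S.A i).Nonempty) →
      (∀ J ⊆ I, J.card ≤ finrank ℝ (S.NJ J)) → ∃ y : E, ∀ J ⊆ I, J.card ≤ finrank ℝ (S.LJ J y)

theorem map_rank {M N : Type} [AddCommGroup M] [Module ℝ M] [FiniteDimensional ℝ M]
    [AddCommGroup N] [Module ℝ N] [FiniteDimensional ℝ N] (r : M →ₗ[ℝ] N) (U : Submodule ℝ M) :
    finrank ℝ (U.map r) + finrank ℝ (U ⊓ LinearMap.ker r : Submodule ℝ M) = finrank ℝ U := by
  have h := (r.domRestrict U).finrank_range_add_finrank_ker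
  rw [LinearMap.range_domRestrict, LinearMap.ker_domRestrict] at h
  rw [← h]
  congr 1
  have h2 : (U ⊓ LinearMap.ker r : Submodule ℝ M) =
      ((LinearMap.ker r).comap U.subtype).map U.subtype := by
    rw [Submodule.map_comap_subtype]
  rw [h2, Submodule.finrank_map_subtype_eq]

variable {ι κ E : Type} [DecidableEq ι] [NormedAddCommGroup E] [NormedSpace ℝ E]
  [FiniteDimensional ℝ E]

namespace Sys

theorem map_sup_L {F : Type} [NormedAddCommGroup F] [NormedSpace ℝ F]
    (r : Dual ℝ E →ₗ[ℝ] Dual ℝ F) (f : ι → Submodule ℝ (Dual ℝ E))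
    (f' : ι → Submodule ℝ (Dual ℝ F)) (J : Finset ι) (h : ∀ i ∈ J, f' i = (f i).map r) :
    J.sup f' = (J.sup f).map r := by
  induction J using Finset.induction_on with
  | empty => simp
  | insert i J hi ih =>
    rw [Finset.sup_insert, Finset.sup_insert, Submodule.map_sup, h i (Finset.mem_insert_self _ _),
      ih fun j hj => h j (Finset.mem_insert_of_mem hj)]

theorem stepA (S : Sys ι κ E) (I : Finset ι) (hne : ∀ i ∈ I, (S.A i).Nonempty)
    (hE : ∀ m < finrank ℝ E, EE ι κ m) (p : E) (G : ℤ) (hgood : S.Good G I p)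
    (J0 : Finset ι) (hJ0 : S.Tight G I p J0) (l : Dual ℝ E)
    (hl : ∀ J, S.Tight G I p J → l ∉ S.LJ J p) :
    ∃ u : E, 0 < l u ∧ ∃ ε > (0 : ℝ), ∀ t : ℝ, 0 < t → t ≤ ε →
      S.Good G I (p + t • u) ∧ (∃ J, S.Tight G I (p + t • u) J) ∧
      ∀ i ∈ I, S.L i p ≠ ⊥ → S.L i (p + t • u) ≠ ⊥ := by
  classical
  -- the maximal tight set
  obtain ⟨Jm, hJm, hmax⟩ := Finset.exists_max_image
    (I.powerset.filter fun J => S.Tight G I p J) Finset.card
    ⟨J0, Finset.mem_filter.2 ⟨Finset.mem_powerset.2 hJ0.1, hJ0⟩⟩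
  have hT : S.Tight G I p Jm := (Finset.mem_filter.1 hJm).2
  have hlV := hl Jm hT
  have hstrict : ∀ J ⊆ I, Disjoint Jm J → J.Nonempty →
      G + 1 + Jm.card + J.card ≤ (finrank ℝ (S.LJ (Jm ∪ J) p) : ℤ) := by
    intro J hJ hd hJne
    have h1 := hgood (Jm ∪ J) (Finset.union_subset hT.1 hJ)
    have h2 : (Jm ∪ J).card = Jm.card + J.card := Finset.card_union_of_disjoint hd
    by_contra hcon
    have h3 : S.Tight G I p (Jm ∪ J) := ⟨Finset.union_subset hT.1 hJ, by
      rw [h2] at h1 ⊢; push_cast at h1 ⊢; omega⟩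
    have h4 := hmax (Jm ∪ J) (Finset.mem_filter.2
      ⟨Finset.mem_powerset.2 (Finset.union_subset hT.1 hJ), h3⟩)
    have h5 := Finset.card_pos.2 hJne
    omega
  set V := S.LJ Jm p with hV
  set V' := V ⊔ Submodule.span ℝ {l} with hV'
  set W0 := V'.dualCoannihilator with hW0
  have hlV' : l ∈ V' := Submodule.mem_sup_right (Submodule.mem_span_singleton_self l)
  have hker : LinearMap.ker W0.dualRestrict = V' := by
    rw [Submodule.dualRestrict_ker_eq_dualAnnihilator, hW0,
      Subspace.dualCoannihilator_dualAnnihilator_eq]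
  -- the vector w0
  obtain ⟨w0, hw0V, hw0l⟩ : ∃ w0 : E, (∀ z ∈ V, z w0 = 0) ∧ l w0 = 1 := by
    have h1 : l ∉ V.dualCoannihilator.dualAnnihilator := by
      rw [Subspace.dualCoannihilator_dualAnnihilator_eq]; exact hlV
    rw [Submodule.mem_dualAnnihilator] at h1
    push Not at h1
    obtain ⟨w, hw, hw'⟩ := h1
    rw [Submodule.mem_dualCoannihilator] at hw
    refine ⟨(l w)⁻¹ • w, fun z hz => by rw [map_smul, hw z hz, smul_zero], ?_⟩
    rw [map_smul, smul_eq_mul, inv_mul_cancel₀ hw']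
  -- the system on `W0`
  let S' : Sys ι κ W0 :=
    { A := fun i => (S.A i).filter fun s => s ∈ S.act i p
      a := fun i s => W0.dualRestrict (S.a i s)
      c := fun i s => S.a i s w0 }
  have hW0lt : finrank ℝ W0 < finrank ℝ E := by
    have h1 := Subspace.finrank_add_finrank_dualCoannihilator_eq V'
    have h2 : 0 < finrank ℝ V' := by
      have hl0 : l ≠ 0 := fun h => by
        rw [h] at hw0l
        simp at hw0l
      have : Nontrivial V' := ⟨⟨⟨l, hlV'⟩, 0, fun h => hl0 (by simpa using congrArg Subtype.val h)⟩⟩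
      exact (Module.finrank_pos_iff (R := ℝ) (M := V')).2 this
    have h3 : finrank ℝ V'.dualCoannihilator = finrank ℝ W0 := rfl
    omega
  have hmapN : ∀ J : Finset ι, S'.NJ J = (S.LJ J p).map W0.dualRestrict := by
    intro J
    apply map_sup_L
    intro i _
    unfold N L
    rw [Submodule.map_span]
    congr 1
    ext z
    constructor
    · rintro ⟨s, hs, t, ht, rfl⟩
      refine ⟨S.a i s - S.a i t, ⟨s, (Finset.mem_filter.1 hs).2, t, (Finset.mem_filter.1 ht).2,
        rfl⟩, ?_⟩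
      rw [map_sub]
    · rintro ⟨_, ⟨s, hs, t, ht, rfl⟩, rfl⟩
      refine ⟨s, Finset.mem_filter.2 ⟨hs.1, hs⟩, t, Finset.mem_filter.2 ⟨ht.1, ht⟩, ?_⟩
      rw [map_sub]
  have hne' : ∀ i ∈ I \ Jm, (S'.A i).Nonempty := by
    intro i hi
    obtain ⟨s, hs⟩ := S.act_nonempty (hne i (Finset.mem_sdiff.1 hi).1) p
    exact ⟨s, Finset.mem_filter.2 ⟨hs.1, hs⟩⟩
  have hT2 := hT.2
  rw [← hV] at hT2
  have hHall : ∀ J ⊆ I \ Jm, J.card ≤ finrank ℝ (S'.NJ J) := by
    intro J hJ
    rcases J.eq_empty_or_nonempty with rfl | hJne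
    · simp
    rw [hmapN]
    have hd : Disjoint Jm J := by
      rw [Finset.disjoint_right]
      intro i hi
      exact (Finset.mem_sdiff.1 (hJ hi)).2
    have h1 := hstrict J (fun i hi => (Finset.mem_sdiff.1 (hJ hi)).1) hd hJne
    have h2 := map_rank W0.dualRestrict (S.LJ J p ⊔ V')
    rw [Submodule.map_sup, hker, inf_eq_right.2 (le_sup_right)] at h2
    have h3 : V'.map W0.dualRestrict = ⊥ := by
      rw [← LinearMap.le_ker_iff_map, hker]
    rw [h3, sup_bot_eq] at h2
    have h4 : finrank ℝ V' ≤ finrank ℝ V + 1 := by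
      have h5 := Submodule.finrank_add_le_finrank_add_finrank V (Submodule.span ℝ {l})
      have h6 := finrank_span_le_card (R := ℝ) ({l} : Set (Dual ℝ E))
      simp only [Set.toFinset_singleton, Finset.card_singleton] at h6
      exact h5.trans (by omega)
    have h5 : finrank ℝ (S.LJ (Jm ∪ J) p) ≤ finrank ℝ (S.LJ J p ⊔ V' : Submodule ℝ (Dual ℝ E)) := by
      apply Submodule.finrank_mono
      rw [LJ_union]
      exact sup_le ((le_sup_left : V ≤ V').trans le_sup_right) le_sup_left
    omega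
  obtain ⟨y, hy⟩ := hE _ hW0lt W0 rfl S' (I \ Jm) hne' hHall
  have hyV : ∀ z ∈ V', z (y : E) = 0 := by
    have h : (y : E) ∈ V'.dualCoannihilator := y.2
    rw [Submodule.mem_dualCoannihilator] at h
    exact h
  have huV : ∀ z ∈ V, z (w0 + y) = 0 := by
    intro z hz
    rw [map_add, hw0V z hz, hyV z (Submodule.mem_sup_left hz), add_zero]
  refine ⟨w0 + y, ?_, ?_⟩
  · rw [map_add, hw0l, hyV l hlV', add_zero]; exact one_pos
  -- the neighbourhood
  have hcont : Filter.Tendsto (fun t : ℝ => p + t • (w0 + (y : E))) (𝓝 0) (𝓝 p) := by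
    have : Continuous (fun t : ℝ => p + t • (w0 + (y : E))) := by fun_prop
    have h := this.tendsto 0
    simpa using h
  have hev := hcont.eventually (S.near I p)
  obtain ⟨δ, hδ, hδ'⟩ := Metric.eventually_nhds_iff.1 hev
  refine ⟨δ / 2, by positivity, ?_⟩
  intro t ht htε
  have hact : ∀ i ∈ I, S.act i (p + t • (w0 + (y : E))) ⊆ S.act i p := by
    apply hδ'
    rw [Real.dist_eq, sub_zero, abs_of_pos ht]
    linarith
  set x := p + t • (w0 + (y : E)) with hx
  have hxp : x - p = t • (w0 + (y : E)) := by rw [hx]; abel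
  have hVx : ∀ z ∈ V, z (x - p) = 0 := by
    intro z hz
    rw [hxp, map_smul, huV z hz, smul_zero]
  have hactJm : ∀ i ∈ Jm, S.act i x = S.act i p := by
    intro i hi
    exact S.fact2 (hne i (hT.1 hi)) (hact i (hT.1 hi)) fun z hz => hVx z (S.L_le_LJ hi p hz)
  have hLJm : ∀ J ⊆ Jm, S.LJ J x = S.LJ J p := by
    intro J hJ
    exact le_antisymm (S.LJ_mono fun i hi => (hactJm i (hJ hi)).le)
      (S.LJ_mono fun i hi => (hactJm i (hJ hi)).ge)
  have hvalx : ∀ i s, S.val i s x = S.val i s p + t * S.a i s (w0 + (y : E)) := by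
    intro i s
    unfold val
    rw [hx, map_add (S.a i s) p, map_smul, smul_eq_mul]
    ring
  have hval' : ∀ i s, S'.val i s y = S.a i s (w0 + (y : E)) := by
    intro i s
    rw [map_add]
    rfl
  have hact' : ∀ i ∈ I, S'.act i y = S.act i x := by
    intro i hi
    ext s
    constructor
    · rintro ⟨hs, hs'⟩
      have hs2 := (Finset.mem_filter.1 hs).2
      obtain ⟨r0, hr0⟩ := S.act_nonempty (hne i hi) x
      have hr0p := hact i hi hr0
      have h1 := hs' r0 (Finset.mem_filter.2 ⟨hr0.1, hr0p⟩)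
      rw [hval', hval'] at h1
      have h2 : S.val i r0 x ≤ S.val i s x := by
        rw [hvalx, hvalx, S.val_eq hr0p hs2]
        have := mul_le_mul_of_nonneg_left h1 ht.le
        linarith
      exact ⟨hs2.1, fun r hr => (hr0.2 r hr).trans h2⟩
    · intro hs
      have hsp := hact i hi hs
      refine ⟨Finset.mem_filter.2 ⟨hs.1, hsp⟩, fun r hr => ?_⟩
      have hr2 := (Finset.mem_filter.1 hr).2
      have h1 := hs.2 r hr2.1
      rw [hvalx, hvalx, S.val_eq hr2 hsp] at h1
      rw [hval', hval']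
      have : t * S.a i r (w0 + (y : E)) ≤ t * S.a i s (w0 + (y : E)) := by linarith
      exact le_of_mul_le_mul_left this ht
  have hmapL : ∀ J ⊆ I, S'.LJ J y = (S.LJ J x).map W0.dualRestrict := by
    intro J hJ
    apply map_sup_L
    intro i hi
    unfold L
    rw [Submodule.map_span, hact' i (hJ hi)]
    congr 1
    ext z
    constructor
    · rintro ⟨s, hs, r, hr, rfl⟩
      exact ⟨S.a i s - S.a i r, ⟨s, hs, r, hr, rfl⟩, by rw [map_sub]⟩
    · rintro ⟨_, ⟨s, hs, r, hr, rfl⟩, rfl⟩
      exact ⟨s, hs, r, hr, by rw [map_sub]⟩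
  have hTx : S.Tight G I x Jm := ⟨hT.1, by rw [hLJm Jm subset_rfl]; exact hT2⟩
  refine ⟨?_, ⟨Jm, hTx⟩, ?_⟩
  · intro J hJ
    set I' := J \ Jm with hI'
    have hI'I : I' ⊆ I \ Jm := by
      intro i hi
      rw [hI', Finset.mem_sdiff] at hi
      exact Finset.mem_sdiff.2 ⟨hJ hi.1, hi.2⟩
    have hI'I2 : I' ⊆ I := fun i hi => (Finset.mem_sdiff.1 (hI'I hi)).1
    have h1 := hy I' hI'I
    rw [hmapL I' hI'I2] at h1
    have h2 := map_rank W0.dualRestrict (V ⊔ S.LJ I' x)
    have h3 : finrank ℝ ((S.LJ I' x).map W0.dualRestrict) ≤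
        finrank ℝ ((V ⊔ S.LJ I' x).map W0.dualRestrict) :=
      Submodule.finrank_mono (Submodule.map_mono le_sup_right)
    have h4 : finrank ℝ V ≤ finrank ℝ ((V ⊔ S.LJ I' x) ⊓ LinearMap.ker W0.dualRestrict :
        Submodule ℝ (Dual ℝ E)) := by
      apply Submodule.finrank_mono
      rw [hker]
      exact le_inf le_sup_left le_sup_left
    have h5 : S.LJ (J ∪ Jm) x = V ⊔ S.LJ I' x := by
      have : J ∪ Jm = Jm ∪ I' := by
        rw [hI']; ext i; simp only [Finset.mem_union, Finset.mem_sdiff]; tauto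
      rw [this, LJ_union, hLJm Jm subset_rfl]
    have h6 := Submodule.finrank_sup_add_finrank_inf_eq (S.LJ J x) (S.LJ Jm x)
    rw [← LJ_union, h5] at h6
    have h7 : S.LJ (J ∩ Jm) x ≤ S.LJ J x ⊓ S.LJ Jm x :=
      le_inf (S.LJ_sub Finset.inter_subset_left x) (S.LJ_sub Finset.inter_subset_right x)
    have h8 := Submodule.finrank_mono h7
    rw [hLJm _ Finset.inter_subset_right] at h8
    have h9 := hgood (J ∩ Jm) (Finset.inter_subset_left.trans hJ)
    have h10 : I'.card + (J ∩ Jm).card = J.card := by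
      rw [hI']; exact Finset.card_sdiff_add_card_inter J Jm
    rw [hLJm Jm subset_rfl, ← hV] at h6 h8
    omega
  · intro i hi hLp
    by_cases him : i ∈ Jm
    · intro h
      apply hLp
      have : S.L i p ≤ S.L i x := S.L_mono (hactJm i him).ge
      rw [h] at this
      exact le_bot_iff.1 this
    · intro h
      have h1 := hy {i} (by
        intro j hj
        rw [Finset.mem_singleton.1 hj]
        exact Finset.mem_sdiff.2 ⟨hi, him⟩)
      rw [hmapL {i} (by intro j hj; rw [Finset.mem_singleton.1 hj]; exact hi)] at h1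
      have h2 : S.LJ {i} x = ⊥ := by
        unfold LJ
        rw [Finset.sup_singleton, h]
      rw [h2, Submodule.map_bot, finrank_bot, Finset.card_singleton] at h1
      omega

end Sys

end Q151.Trop
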